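import Mathlib

/-!
# MP_5f94bd_co: arc length on two concentric circles

If disks with radii `r k` cover the unit disk, then they cover the unit circle and the circle of
radius `ρ`; the weighted sum of the lengths of the covered arcs is at least `2π(1 + w)`.
-/

set_option autoImplicit false

namespace Pool.Agent.Lib.MP_5f94bd_co

open MeasureTheory Real Set

local instance instTwoPi : Fact (0 < 2 * π) := ⟨Real.two_pi_pos⟩

/-- the directions of the points of the circle of radius `ρ` around `0` which are in the disk with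
centre `(a, b)` and radius `r` -/
def arc (ρ a b r : ℝ) : Set (AddCircle (2 * π)) :=
  {x | ∃ θ : ℝ, (θ : AddCircle (2 * π)) = x ∧
    (ρ * cos θ - a) ^ 2 + (ρ * sin θ - b) ^ 2 ≤ r ^ 2}

/-- `α` bounds half the angle of the arc of the circle of radius `ρ` covered by a disk of radius `r`
whose centre has distance `d` from the origin -/
def Ok (ρ d r α : ℝ) : Prop :=
  0 ≤ α ∧ (π ≤ α ∨ 2 * ρ * d * cos α < ρ ^ 2 + d ^ 2 - r ^ 2)

lemma arc_subset {ρ a b r α : ℝ} (hα0 : 0 ≤ α) (hρ : 0 < ρ)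
    (h : 2 * ρ * Real.sqrt (a ^ 2 + b ^ 2) * cos α < ρ ^ 2 + Real.sqrt (a ^ 2 + b ^ 2) ^ 2 - r ^ 2) :
    arc ρ a b r ⊆ Metric.closedBall ((Complex.arg ⟨a, b⟩ : ℝ) : AddCircle (2 * π)) α := by
  rintro x ⟨θ, rfl, hθ⟩
  set φ : ℝ := Complex.arg ⟨a, b⟩ with hφ
  set d : ℝ := Real.sqrt (a ^ 2 + b ^ 2) with hd
  have hd0 : 0 ≤ d := Real.sqrt_nonneg _
  have hd2 : d ^ 2 = a ^ 2 + b ^ 2 := Real.sq_sqrt (by positivity)
  have hn : ‖(⟨a, b⟩ : ℂ)‖ = d := by
    rw [Complex.norm_def, Complex.normSq_mk, hd]; congr 1; ring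
  have ha : d * cos φ = a := by rw [← hn, hφ]; exact Complex.norm_mul_cos_arg _
  have hb : d * sin φ = b := by rw [← hn, hφ]; exact Complex.norm_mul_sin_arg _
  rw [Metric.mem_closedBall, dist_eq_norm, ← AddCircle.coe_sub, AddCircle.norm_eq]
  set n : ℤ := round ((2 * π)⁻¹ * (θ - φ)) with hnn
  set t : ℝ := θ - φ - n * (2 * π) with ht
  have hcos : cos t = cos (θ - φ) := by rw [ht]; exact Real.cos_sub_int_mul_two_pi _ _
  have htpi : |t| ≤ π := by
    have h1 := abs_sub_round ((2 * π)⁻¹ * (θ - φ))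
    rw [← hnn] at h1
    have h2 : t = ((2 * π)⁻¹ * (θ - φ) - n) * (2 * π) := by
      rw [ht]; field_simp
    rw [h2, abs_mul, abs_of_pos Real.two_pi_pos]
    calc |(2 * π)⁻¹ * (θ - φ) - n| * (2 * π) ≤ 1 / 2 * (2 * π) :=
          mul_le_mul_of_nonneg_right h1 Real.two_pi_pos.le
      _ = π := by ring
  by_contra hcon
  push Not at hcon
  have h3 : cos |t| < cos α := Real.cos_lt_cos_of_nonneg_of_le_pi hα0 htpi hcon
  rw [Real.cos_abs, hcos, Real.cos_sub] at h3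
  have h4 : ρ ^ 2 + d ^ 2 - r ^ 2 ≤ 2 * ρ * d * (cos θ * cos φ + sin θ * sin φ) := by
    have h5 := Real.sin_sq_add_cos_sq θ
    have h6 : (ρ * cos θ - a) ^ 2 + (ρ * sin θ - b) ^ 2 =
        ρ ^ 2 * (sin θ ^ 2 + cos θ ^ 2) + (a ^ 2 + b ^ 2) - 2 * ρ * (cos θ * a + sin θ * b) := by
      ring
    rw [h6, h5, ← hd2] at hθ
    have h7 : cos θ * a + sin θ * b = d * (cos θ * cos φ + sin θ * sin φ) := by
      rw [← ha, ← hb]; ring
    rw [h7] at hθ
    linarith
  have h8 : 2 * ρ * d * (cos θ * cos φ + sin θ * sin φ) ≤ 2 * ρ * d * cos α :=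
    mul_le_mul_of_nonneg_left h3.le (by positivity)
  linarith

lemma vol_arc {ρ a b r α : ℝ} (hρ : 0 < ρ) (h : Ok ρ (Real.sqrt (a ^ 2 + b ^ 2)) r α) :
    volume (arc ρ a b r) ≤ ENNReal.ofReal (2 * α) := by
  obtain ⟨h0, h1⟩ := h
  by_cases hα : π ≤ α
  · refine (measure_mono (subset_univ _)).trans ?_
    rw [AddCircle.measure_univ]
    exact ENNReal.ofReal_le_ofReal (by linarith)
  · push Not at hα
    have h2 := h1.resolve_left (not_le.2 hα)
    refine (measure_mono (arc_subset h0 hρ h2)).trans ?_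
    rw [AddCircle.volume_closedBall]
    exact ENNReal.ofReal_le_ofReal (min_le_right _ _)

lemma cover_arc {ρ : ℝ} (hρ0 : 0 < ρ) (hρ1 : ρ ≤ 1) (r a b : ℕ → ℝ)
    (hcov : ∀ x y : ℝ, x ^ 2 + y ^ 2 ≤ 1 → ∃ k, (x - a k) ^ 2 + (y - b k) ^ 2 ≤ r k ^ 2) :
    ENNReal.ofReal (2 * π) ≤ ∑' k, volume (arc ρ (a k) (b k) (r k)) := by
  have h1 : (univ : Set (AddCircle (2 * π))) ⊆ ⋃ k, arc ρ (a k) (b k) (r k) := by
    intro x _
    obtain ⟨θ, rfl⟩ := QuotientAddGroup.mk_surjective x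
    obtain ⟨k, hk⟩ := hcov (ρ * cos θ) (ρ * sin θ) (by
      have h5 := Real.sin_sq_add_cos_sq θ
      calc (ρ * cos θ) ^ 2 + (ρ * sin θ) ^ 2 = ρ ^ 2 * (sin θ ^ 2 + cos θ ^ 2) := by ring
        _ = ρ ^ 2 := by rw [h5, mul_one]
        _ ≤ 1 := pow_le_one₀ hρ0.le hρ1)
    exact mem_iUnion.2 ⟨k, θ, rfl, hk⟩
  calc ENNReal.ofReal (2 * π) = volume (univ : Set (AddCircle (2 * π))) :=
        (AddCircle.measure_univ _).symm
    _ ≤ volume (⋃ k, arc ρ (a k) (b k) (r k)) := measure_mono h1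
    _ ≤ _ := measure_iUnion_le _

/-- the lower bound principle -/
theorem arcs_le {ρ w : ℝ} (hρ0 : 0 < ρ) (hρ1 : ρ ≤ 1) (hw : 0 ≤ w) (r F : ℕ → ℝ)
    (hF : Summable F)
    (hloc : ∀ k, ∀ d : ℝ, 0 ≤ d → ∃ α β : ℝ, Ok 1 d (r k) α ∧ Ok ρ d (r k) β ∧
      α + w * β ≤ F k)
    (a b : ℕ → ℝ)
    (hcov : ∀ x y : ℝ, x ^ 2 + y ^ 2 ≤ 1 → ∃ k, (x - a k) ^ 2 + (y - b k) ^ 2 ≤ r k ^ 2) :
    π * (1 + w) ≤ ∑' k, F k := by
  choose α β hα hβ hαβ using fun k => hloc k (Real.sqrt (a k ^ 2 + b k ^ 2)) (Real.sqrt_nonneg _)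
  have hF0 : ∀ k, 0 ≤ F k := fun k => by
    have h1 := (hα k).1
    have h2 := mul_nonneg hw (hβ k).1
    linarith [hαβ k]
  have h1 := cover_arc (ρ := 1) one_pos le_rfl r a b hcov
  have h2 := cover_arc hρ0 hρ1 r a b hcov
  have h3 : ENNReal.ofReal (2 * π) + ENNReal.ofReal w * ENNReal.ofReal (2 * π) ≤
      ∑' k, ENNReal.ofReal (2 * F k) := by
    calc ENNReal.ofReal (2 * π) + ENNReal.ofReal w * ENNReal.ofReal (2 * π)
        ≤ (∑' k, volume (arc 1 (a k) (b k) (r k))) +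
          ENNReal.ofReal w * ∑' k, volume (arc ρ (a k) (b k) (r k)) :=
            add_le_add h1 (mul_le_mul_right h2 _)
      _ = ∑' k, (volume (arc 1 (a k) (b k) (r k)) +
          ENNReal.ofReal w * volume (arc ρ (a k) (b k) (r k))) := by
            rw [ENNReal.tsum_add, ENNReal.tsum_mul_left]
      _ ≤ ∑' k, ENNReal.ofReal (2 * F k) := by
            refine ENNReal.tsum_le_tsum fun k => ?_
            calc volume (arc 1 (a k) (b k) (r k)) +
                ENNReal.ofReal w * volume (arc ρ (a k) (b k) (r k))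
                ≤ ENNReal.ofReal (2 * α k) + ENNReal.ofReal w * ENNReal.ofReal (2 * β k) :=
                  add_le_add (vol_arc one_pos (hα k)) (mul_le_mul_right (vol_arc hρ0 (hβ k)) _)
              _ = ENNReal.ofReal (2 * α k + w * (2 * β k)) := by
                  rw [← ENNReal.ofReal_mul hw, ← ENNReal.ofReal_add]
                  · linarith [(hα k).1]
                  · exact mul_nonneg hw (by linarith [(hβ k).1])
              _ ≤ ENNReal.ofReal (2 * F k) := ENNReal.ofReal_le_ofReal (by linarith [hαβ k])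
  rw [← ENNReal.ofReal_mul hw, ← ENNReal.ofReal_add Real.two_pi_pos.le
    (mul_nonneg hw Real.two_pi_pos.le), ← ENNReal.ofReal_tsum_of_nonneg
    (fun k => by linarith [hF0 k]) (hF.mul_left 2), ENNReal.ofReal_le_ofReal_iff
    (tsum_nonneg fun k => by linarith [hF0 k]), tsum_mul_left] at h3
  linarith

end Pool.Agent.Lib.MP_5f94bd_co
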