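import Mathlib

/-!
# MP_5f94bd_co: a checker for coverings of a disk by disks

All coordinates are natural numbers; a cell is the square `[x, x + h] × [y, y + h]`; the disk to be
covered has centre `(S, S)` and radius `S`.  A disk of the covering is `(a, b, q)`: centre `(a, b)`,
square of the radius `q`.
-/

set_option autoImplicit false

namespace Pool.Agent.Lib.MP_5f94bd_co

/-- the square of the distance of two natural numbers -/
def sq (a b : ℕ) : ℕ := ((a - b) + (b - a)) * ((a - b) + (b - a))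

/-- the square of the distance of `a` and the interval `[x, x + h]` -/
def nq (a x h : ℕ) : ℕ := ((x - a) + (a - (x + h))) * ((x - a) + (a - (x + h)))

/-- all four corners of the cell are in the disk -/
def inD (x y h : ℕ) (D : ℕ × ℕ × ℕ) : Bool :=
  cond (Nat.ble (sq x D.1 + sq y D.2.1) D.2.2)
    (cond (Nat.ble (sq (x + h) D.1 + sq (y + h) D.2.1) D.2.2)
      (cond (Nat.ble (sq x D.1 + sq (y + h) D.2.1) D.2.2)
        (Nat.ble (sq (x + h) D.1 + sq y D.2.1) D.2.2) false) false) false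

/-- the cell meets the disk -/
def meets (x y h : ℕ) (D : ℕ × ℕ × ℕ) : Bool :=
  Nat.ble (nq D.1 x h + nq D.2.1 y h) D.2.2

/-- some disk of the list contains the cell -/
def anyD (x y h : ℕ) : List (ℕ × ℕ × ℕ) → Bool
  | [] => false
  | D :: L => cond (inD x y h D) true (anyD x y h L)

/-- the disks of the list which meet the cell -/
def filt (x y h : ℕ) : List (ℕ × ℕ × ℕ) → List (ℕ × ℕ × ℕ)
  | [] => []
  | D :: L => cond (meets x y h D) (D :: filt x y h L) (filt x y h L)

/-- the checker for a cell with side `2 ^ n`: the cell is outside of the disk to be covered, or it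
is contained in a disk of the list, or the four quarters pass the test -/
def check (S : ℕ) : ℕ → ℕ → ℕ → List (ℕ × ℕ × ℕ) → Bool
  | 0, _, _, _ => false
  | n + 1, x, y, L =>
    cond (Nat.ble (nq S x (2 ^ (n + 1)) + nq S y (2 ^ (n + 1))) (S * S))
      (cond (anyD x y (2 ^ (n + 1)) L) true
        (cond (check S n x y (filt x y (2 ^ n) L))
          (cond (check S n (x + 2 ^ n) y (filt (x + 2 ^ n) y (2 ^ n) L))
            (cond (check S n x (y + 2 ^ n) (filt x (y + 2 ^ n) (2 ^ n) L))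
              (check S n (x + 2 ^ n) (y + 2 ^ n) (filt (x + 2 ^ n) (y + 2 ^ n) (2 ^ n) L))
              false) false) false))
      true

lemma sq_cast (a b : ℕ) : ((sq a b : ℕ) : ℝ) = ((a : ℝ) - b) ^ 2 := by
  unfold sq
  rcases le_total a b with h | h
  · rw [Nat.sub_eq_zero_of_le h, zero_add]
    push_cast [Nat.cast_sub h]; ring
  · rw [Nat.sub_eq_zero_of_le h, add_zero]
    push_cast [Nat.cast_sub h]; ring

lemma nq_le {a x h : ℕ} {u : ℝ} (hx : (x : ℝ) ≤ u) (hu : u ≤ x + h) :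
    ((nq a x h : ℕ) : ℝ) ≤ (u - a) ^ 2 := by
  unfold nq
  rcases le_total x a with h1 | h1
  · rw [Nat.sub_eq_zero_of_le h1, zero_add]
    rcases le_total a (x + h) with h2 | h2
    · rw [Nat.sub_eq_zero_of_le h2]; simpa using sq_nonneg (u - a)
    · have h3 : ((x : ℝ) + h) ≤ a := by exact_mod_cast h2
      push_cast [Nat.cast_sub h2]
      nlinarith
  · have h2 : a ≤ x + h := by omega
    rw [Nat.sub_eq_zero_of_le h2, add_zero]
    have h3 : (a : ℝ) ≤ x := by exact_mod_cast h1
    push_cast [Nat.cast_sub h1]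
    nlinarith

/-- convexity in one variable -/
lemma cvx {x h u a : ℝ} (hx : x ≤ u) (hu : u ≤ x + h) :
    (u - a) ^ 2 ≤ (x - a) ^ 2 ∨ (u - a) ^ 2 ≤ (x + h - a) ^ 2 := by
  rcases le_total u a with h1 | h1
  · left; nlinarith
  · right; nlinarith

lemma inD_sound {x y h : ℕ} {D : ℕ × ℕ × ℕ} (hD : inD x y h D = true) {u v : ℝ}
    (hx : (x : ℝ) ≤ u) (hu : u ≤ x + h) (hy : (y : ℝ) ≤ v) (hv : v ≤ y + h) :
    (u - D.1) ^ 2 + (v - D.2.1) ^ 2 ≤ D.2.2 := by
  unfold inD at hD
  simp only [Bool.cond_false_right, Bool.and_eq_true, Nat.ble_eq] at hD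
  obtain ⟨h1, h2, h3, h4⟩ := hD
  have h1' : ((sq x D.1 + sq y D.2.1 : ℕ) : ℝ) ≤ D.2.2 := by exact_mod_cast h1
  have h2' : ((sq (x + h) D.1 + sq (y + h) D.2.1 : ℕ) : ℝ) ≤ D.2.2 := by exact_mod_cast h2
  have h3' : ((sq x D.1 + sq (y + h) D.2.1 : ℕ) : ℝ) ≤ D.2.2 := by exact_mod_cast h3
  have h4' : ((sq (x + h) D.1 + sq y D.2.1 : ℕ) : ℝ) ≤ D.2.2 := by exact_mod_cast h4
  rw [Nat.cast_add, sq_cast, sq_cast] at h1' h2' h3' h4'
  push_cast at h1' h2' h3' h4'
  rcases cvx hx hu (a := (D.1 : ℝ)) with hA | hA <;>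
    rcases cvx hy hv (a := (D.2.1 : ℝ)) with hB | hB <;> linarith

lemma anyD_sound {x y h : ℕ} {u v : ℝ} (hx : (x : ℝ) ≤ u) (hu : u ≤ x + h) (hy : (y : ℝ) ≤ v)
    (hv : v ≤ y + h) : ∀ L : List (ℕ × ℕ × ℕ), anyD x y h L = true →
      ∃ D ∈ L, (u - D.1) ^ 2 + (v - D.2.1) ^ 2 ≤ D.2.2 := by
  intro L
  induction L with
  | nil => intro h; simp [anyD] at h
  | cons D L ih =>
    intro h
    rw [anyD] at h
    cases hD : inD x y ‹ℕ› D with
    | true => exact ⟨D, List.mem_cons_self, inD_sound hD hx hu hy hv⟩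
    | false =>
      rw [hD, cond_false] at h
      obtain ⟨D', h1, h2⟩ := ih h
      exact ⟨D', List.mem_cons_of_mem _ h1, h2⟩

lemma filt_sub {x y h : ℕ} : ∀ (L : List (ℕ × ℕ × ℕ)) (D : ℕ × ℕ × ℕ), D ∈ filt x y h L →
    D ∈ L := by
  intro L
  induction L with
  | nil => intro D hD; simp [filt] at hD
  | cons E L ih =>
    intro D hD
    rw [filt] at hD
    cases hE : meets x y h E with
    | true =>
      rw [hE, cond_true] at hD
      rcases List.mem_cons.1 hD with h1 | h1
      · rw [h1]; exact List.mem_cons_self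
      · exact List.mem_cons_of_mem _ (ih D h1)
    | false =>
      rw [hE, cond_false] at hD
      exact List.mem_cons_of_mem _ (ih D hD)

theorem check_sound (S : ℕ) : ∀ (n x y : ℕ) (L : List (ℕ × ℕ × ℕ)), check S n x y L = true →
    ∀ u v : ℝ, (x : ℝ) ≤ u → u ≤ x + 2 ^ n → (y : ℝ) ≤ v → v ≤ y + 2 ^ n →
      (u - S) ^ 2 + (v - S) ^ 2 ≤ S ^ 2 → ∃ D ∈ L, (u - D.1) ^ 2 + (v - D.2.1) ^ 2 ≤ D.2.2 := by
  intro n
  induction n with
  | zero => intro x y L h; simp [check] at h
  | succ n ih =>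
    intro x y L h u v hx hu hy hv hS
    rw [check] at h
    have hout : Nat.ble (nq S x (2 ^ (n + 1)) + nq S y (2 ^ (n + 1))) (S * S) = true := by
      rw [Nat.ble_eq]
      have h1 := nq_le (a := S) (h := 2 ^ (n + 1)) hx (by push_cast; exact hu)
      have h2 := nq_le (a := S) (h := 2 ^ (n + 1)) hy (by push_cast; exact hv)
      have h3 : ((nq S x (2 ^ (n + 1)) + nq S y (2 ^ (n + 1)) : ℕ) : ℝ) ≤ ((S * S : ℕ) : ℝ) := by
        push_cast
        nlinarith
      exact_mod_cast h3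
    rw [hout, cond_true] at h
    cases hany : anyD x y (2 ^ (n + 1)) L with
    | true =>
      exact anyD_sound hx (by push_cast; exact hu) hy (by push_cast; exact hv) L hany
    | false =>
      rw [hany, cond_false] at h
      simp only [Bool.cond_false_right, Bool.and_eq_true] at h
      obtain ⟨h1, h2, h3, h4⟩ := h
      have e : (2 : ℝ) ^ (n + 1) = 2 ^ n + 2 ^ n := by ring
      rw [e] at hu hv
      rcases le_total u ((x : ℝ) + 2 ^ n) with hu' | hu' <;>
        rcases le_total v ((y : ℝ) + 2 ^ n) with hv' | hv'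
      · obtain ⟨D, hD, hD'⟩ := ih x y _ h1 u v hx hu' hy hv' hS
        exact ⟨D, filt_sub _ _ hD, hD'⟩
      · obtain ⟨D, hD, hD'⟩ := ih x (y + 2 ^ n) _ h3 u v hx hu' (by push_cast; exact hv')
          (by push_cast; linarith) hS
        exact ⟨D, filt_sub _ _ hD, hD'⟩
      · obtain ⟨D, hD, hD'⟩ := ih (x + 2 ^ n) y _ h2 u v (by push_cast; exact hu')
          (by push_cast; linarith) hy hv' hS
        exact ⟨D, filt_sub _ _ hD, hD'⟩
      · obtain ⟨D, hD, hD'⟩ := ih (x + 2 ^ n) (y + 2 ^ n) _ h4 u v (by push_cast; exact hu')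
          (by push_cast; linarith) (by push_cast; exact hv') (by push_cast; linarith) hS
        exact ⟨D, filt_sub _ _ hD, hD'⟩

end Pool.Agent.Lib.MP_5f94bd_co
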