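import Mathlib

/-!
# MP_5f94bd_co: definitions
-/

set_option autoImplicit false

namespace Pool.Agent.Lib.MP_5f94bd_co

/-- `s` is admissible: the closed unit disk of the plane is covered by closed disks with the radii
`s, s ^ 2, s ^ 3, …`, one of each radius. -/
def Admissible (s : ℝ) : Prop :=
  ∃ c : ℕ → EuclideanSpace ℝ (Fin 2),
    Metric.closedBall (0 : EuclideanSpace ℝ (Fin 2)) 1 ⊆
      ⋃ k : ℕ, Metric.closedBall (c k) (s ^ (k + 1))

/-- `s*`, the infimum of the admissible numbers in `(0, 1)`. -/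
noncomputable def sStar : ℝ := sInf {s : ℝ | 0 < s ∧ s < 1 ∧ Admissible s}

end Pool.Agent.Lib.MP_5f94bd_co
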