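import Pool.Agent.Lib.MP_5f94bd_co.Piece

/-!
# MP_5f94bd_co: the ratio 0.753 is not admissible
-/

set_option autoImplicit false

namespace Pool.Agent.Lib.MP_5f94bd_co

/-- the entries of the lists are in units of `1/2000` -/
def mk (L : List (ℕ × ℕ × ℕ)) : List (ℚ × ℚ × ℚ) :=
  L.map fun t => ((t.1 : ℚ) / 2000, (t.2.1 : ℚ) / 2000, (t.2.2 : ℚ) / 2000)

/-- the subdivision for the disk number 1 -/
def L1 : List (ℕ × ℕ × ℕ) :=
  [(608, 1055, 6284), (737, 1379, 4670), (819, 1495, 4087), (871, 1549, 3822), (905, 1578, 3676),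
   (929, 1596, 3588), (947, 1608, 3529), (960, 1616, 3486), (970, 1622, 3456), (979, 1627, 3433),
   (986, 1631, 3412), (992, 1634, 3397), (998, 1637, 3383), (1004, 1640, 3370),
   (1008, 1642, 3357), (1012, 1644, 3348), (1016, 1646, 3340), (1019, 1647, 3331),
   (1023, 1649, 3324), (1025, 1650, 3316), (1028, 1651, 3312), (1032, 1653, 3305),
   (1035, 1654, 3297), (1039, 1656, 3290), (1042, 1657, 3282), (1044, 1658, 3276),
   (1047, 1659, 3271), (1052, 1661, 3265), (1057, 1663, 3255), (1063, 1665, 3245),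
   (1069, 1667, 3232), (1077, 1670, 3220), (1087, 1673, 3204), (1100, 1677, 3184),
   (1118, 1682, 3158), (1148, 1689, 3123), (1227, 1701, 3065), (5322, 1706, 2920)]

/-- the subdivision for the disk number 2 -/
def L2 : List (ℕ × ℕ × ℕ) :=
  [(881, 278, 6284), (1181, 1033, 2543), (1284, 1112, 2148), (1333, 1139, 2012),
   (1362, 1152, 1946), (1381, 1160, 1906), (1395, 1165, 1881), (1406, 1169, 1861),
   (1416, 1172, 1846), (1425, 1175, 1832), (1435, 1178, 1820), (1443, 1180, 1806),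
   (1454, 1183, 1795), (1466, 1186, 1779), (1480, 1189, 1762), (1500, 1193, 1742),
   (1539, 1199, 1714), (5634, 1206, 1657)]

/-- the subdivision for the disk number 3 -/
def L3 : List (ℕ × ℕ × ℕ) :=
  [(1332, 655, 1985), (1452, 774, 1392), (1502, 806, 1230), (1530, 821, 1155), (1549, 830, 1111),
   (1563, 836, 1080), (1575, 841, 1057), (1586, 845, 1036), (1597, 849, 1017), (1609, 853, 997),
   (1622, 857, 975), (1640, 862, 951), (1671, 869, 916), (1765, 881, 854), (5860, 883, 625)]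

/-- the subdivision for the disk number 4 -/
def L4 : List (ℕ × ℕ × ℕ) :=
  [(1445, 383, 1365), (1524, 497, 801), (1555, 528, 644), (1572, 543, 569), (1583, 552, 523),
   (1592, 559, 491), (1598, 564, 462), (1604, 568, 443), (1610, 572, 422), (1617, 577, 400),
   (1625, 582, 373), (1637, 589, 339), (1659, 601, 281), (1746, 635, 111), (5841, 655, 0)]

theorem chk1 : chk (51 / 100) (1 / 5) ((753 / 1000) ^ 2) (1157 / 1000) 0 (mk L1) = true := by
  decide +kernel

theorem chk2 : chk (51 / 100) (1 / 5) ((753 / 1000) ^ 4) (771 / 1000) 0 (mk L2) = true := by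
  decide +kernel

theorem chk3 : chk (51 / 100) (1 / 5) ((753 / 1000) ^ 6) (5263 / 10000) 0 (mk L3) = true := by
  decide +kernel

theorem chk4 : chk (51 / 100) (1 / 5) ((753 / 1000) ^ 8) (3286 / 10000) 0 (mk L4) = true := by
  decide +kernel

/-! ## Small disks -/

lemma sin_gt {r : ℝ} (h0 : 0 < r) (h1 : r ≤ 2422 / 10000) : r < Real.sin (r + r ^ 3 / 5) := by
  set α : ℝ := r + r ^ 3 / 5 with hα
  have hr2 : r ^ 2 ≤ 6 / 100 := by nlinarith
  have hr2' : 0 < r ^ 2 := by positivity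
  have hm : α = r * (1 + r ^ 2 / 5) := by rw [hα]; ring
  have h2 : α ≤ r * (1012 / 1000) := by
    rw [hm]; exact mul_le_mul_of_nonneg_left (by linarith) h0.le
  have hα0 : 0 < α := by rw [hα]; positivity
  have hα1 : |α| ≤ 1 := by rw [abs_of_pos hα0]; linarith
  have h3 := Real.sin_bound hα1
  rw [abs_of_pos hα0] at h3
  have h4 := (abs_le.1 h3).1
  have h5 : α ^ 3 ≤ r ^ 3 * (104 / 100) := by
    calc α ^ 3 ≤ (r * (1012 / 1000)) ^ 3 := pow_le_pow_left₀ hα0.le h2 3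
      _ = r ^ 3 * (1012 / 1000) ^ 3 := by ring
      _ ≤ r ^ 3 * (104 / 100) := by
          refine mul_le_mul_of_nonneg_left ?_ (by positivity)
          norm_num
  have h6 : α ^ 4 ≤ r ^ 3 * (26 / 100) := by
    calc α ^ 4 = α ^ 3 * α := by ring
      _ ≤ r ^ 3 * (104 / 100) * (246 / 1000) :=
          mul_le_mul h5 (by linarith) hα0.le (by positivity)
      _ = r ^ 3 * (104 / 100 * (246 / 1000)) := by ring
      _ ≤ r ^ 3 * (26 / 100) := by
          refine mul_le_mul_of_nonneg_left ?_ (by positivity)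
          norm_num
  have h7 : 0 < r ^ 3 := by positivity
  have h9 : α ^ 5 ≤ α ^ 4 := by
    calc α ^ 5 = α ^ 4 * α := by ring
      _ ≤ α ^ 4 * 1 := mul_le_mul_of_nonneg_left (by linarith) (by positivity)
      _ = α ^ 4 := mul_one _
  have h8 : α - α ^ 3 / 6 - α ^ 5 / 100 ≤ Real.sin α := by linarith
  refine lt_of_lt_of_le ?_ h8
  rw [hα] at h2 ⊢
  rw [← hα]
  linarith

lemma ok_of_sin {ρ d r α : ℝ} (hr : 0 ≤ r) (hα0 : 0 ≤ α)
    (h : r < ρ * Real.sin α) : Ok ρ d r α := by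
  refine ⟨hα0, Or.inr ?_⟩
  have h1 : r ^ 2 < ρ ^ 2 * Real.sin α ^ 2 := by
    have := pow_lt_pow_left₀ h hr (two_ne_zero)
    rwa [mul_pow] at this
  have h2 := Real.sin_sq_add_cos_sq α
  have h3 : ρ ^ 2 * Real.cos α ^ 2 < ρ ^ 2 - r ^ 2 := by
    have : ρ ^ 2 * Real.cos α ^ 2 = ρ ^ 2 - ρ ^ 2 * Real.sin α ^ 2 := by
      have h4 : Real.cos α ^ 2 = 1 - Real.sin α ^ 2 := by linarith
      rw [h4]; ring
    linarith
  nlinarith [sq_nonneg (d - ρ * Real.cos α)]

lemma tail {r : ℝ} (h0 : 0 < r) (h1 : r ≤ 2422 / 10000) (d : ℝ) :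
    ∃ α β : ℝ, Ok 1 d r α ∧ Ok (51 / 100) d r β ∧ α + 1 / 5 * β ≤ r + r ^ 3 / 5 := by
  have hr3 : 0 < r ^ 3 := by positivity
  by_cases hd : 151 / 200 ≤ d
  · refine ⟨r + r ^ 3 / 5, 0, ?_, ⟨le_rfl, Or.inr ?_⟩, by simp⟩
    · refine ok_of_sin h0.le (by positivity) ?_
      rw [one_mul]; exact sin_gt h0 h1
    · rw [Real.cos_zero]
      nlinarith
  · push Not at hd
    refine ⟨0, 5 * r, ⟨le_rfl, Or.inr ?_⟩, ?_, by linarith⟩
    · rw [Real.cos_zero]
      nlinarith
    · refine ok_of_sin h0.le (by positivity) ?_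
      have hpi := Real.pi_gt_three
      have hpi2 := Real.pi_lt_d2
      have h2 : 2 / Real.pi * (5 * r) ≤ Real.sin (5 * r) :=
        Real.mul_le_sin (by positivity) (by linarith)
      have h3 : (3 : ℝ) * r ≤ 2 / Real.pi * (5 * r) := by
        rw [div_mul_eq_mul_div, le_div_iff₀ Real.pi_pos]
        nlinarith
      nlinarith

/-! ## The sum -/

/-- the bounds for the disks with radii `s, s ^ 2, …` -/
noncomputable def Fb (s : ℝ) : ℕ → ℝ
  | 0 => 1157 / 1000
  | 1 => 771 / 1000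
  | 2 => 5263 / 10000
  | 3 => 3286 / 10000
  | k + 4 => s ^ (k + 5) + (s ^ (k + 5)) ^ 3 / 5

theorem not_cover (a b : ℕ → ℝ) :
    ¬ ∀ x y : ℝ, x ^ 2 + y ^ 2 ≤ 1 →
      ∃ k, (x - a k) ^ 2 + (y - b k) ^ 2 ≤ ((753 / 1000 : ℝ) ^ (k + 1)) ^ 2 := by
  intro hcov
  set s : ℝ := 753 / 1000 with hs
  have hs0 : 0 < s := by rw [hs]; norm_num
  have hs1 : s < 1 := by rw [hs]; norm_num
  have hs5 : s ^ 5 ≤ 2422 / 10000 := by rw [hs]; norm_num
  have e : ∀ k, Fb s (k + 4) = s ^ 5 * s ^ k + s ^ 15 / 5 * (s ^ 3) ^ k := by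
    intro k
    show s ^ (k + 5) + (s ^ (k + 5)) ^ 3 / 5 = _
    rw [← pow_mul, ← pow_mul, div_mul_eq_mul_div, ← pow_add, ← pow_add]
    congr 2
    · ring
    · ring
  have hs3 : s ^ 3 < 1 := pow_lt_one₀ hs0.le hs1 (by norm_num)
  have g1 : Summable fun k : ℕ => s ^ 5 * s ^ k :=
    (summable_geometric_of_lt_one hs0.le hs1).mul_left _
  have g2 : Summable fun k : ℕ => s ^ 15 / 5 * (s ^ 3) ^ k :=
    (summable_geometric_of_lt_one (by positivity) hs3).mul_left _
  have hsum : Summable fun k => Fb s (k + 4) := by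
    simp only [e]; exact g1.add g2
  have hF : Summable (Fb s) := (summable_nat_add_iff 4).1 hsum
  have htot : ∑' k, Fb s k = 1157 / 1000 + 771 / 1000 + 5263 / 10000 + 3286 / 10000 +
      (s ^ 5 * (1 - s)⁻¹ + s ^ 15 / 5 * (1 - s ^ 3)⁻¹) := by
    rw [← hF.sum_add_tsum_nat_add 4]
    congr 1
    · simp [Finset.sum_range_succ, Fb]
    · simp only [e]
      rw [g1.tsum_add g2, tsum_mul_left, tsum_mul_left,
        tsum_geometric_of_lt_one hs0.le hs1, tsum_geometric_of_lt_one (by positivity) hs3]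
  have key := arcs_le (ρ := 51 / 100) (w := 1 / 5) (by norm_num) (by norm_num) (by norm_num)
    (fun k => s ^ (k + 1)) (Fb s) hF ?_ a b hcov
  · rw [htot] at key
    have hpi := Real.pi_gt_d2
    have hnum : (1157 / 1000 + 771 / 1000 + 5263 / 10000 + 3286 / 10000 +
        (s ^ 5 * (1 - s)⁻¹ + s ^ 15 / 5 * (1 - s ^ 3)⁻¹)) < 3.768 := by
      rw [hs]; norm_num
    nlinarith
  · intro k d hd
    have hx : ((0 : ℚ) : ℝ) ≤ d := by simpa using hd
    have h51 : (0 : ℚ) < 51 / 100 := by norm_num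
    rcases k with _ | _ | _ | _ | k
    · obtain ⟨α, β, h1, h2, h3⟩ := of_chk h51 (r := s ^ 1) (by rw [hs]; norm_num) _ _ chk1 d hd hx
      exact ⟨α, β, h1, by simpa using h2, by simpa [Fb] using h3⟩
    · obtain ⟨α, β, h1, h2, h3⟩ := of_chk h51 (r := s ^ 2) (by rw [hs]; norm_num) _ _ chk2 d hd hx
      exact ⟨α, β, h1, by simpa using h2, by simpa [Fb] using h3⟩
    · obtain ⟨α, β, h1, h2, h3⟩ := of_chk h51 (r := s ^ 3) (by rw [hs]; norm_num) _ _ chk3 d hd hx
      exact ⟨α, β, h1, by simpa using h2, by simpa [Fb] using h3⟩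
    · obtain ⟨α, β, h1, h2, h3⟩ := of_chk h51 (r := s ^ 4) (by rw [hs]; norm_num) _ _ chk4 d hd hx
      exact ⟨α, β, h1, by simpa using h2, by simpa [Fb] using h3⟩
    · have hle : s ^ (k + 5) ≤ 2422 / 10000 := by
        calc s ^ (k + 5) ≤ s ^ 5 := pow_le_pow_of_le_one hs0.le hs1.le (by omega)
          _ ≤ _ := hs5
      exact tail (by positivity) hle d

end Pool.Agent.Lib.MP_5f94bd_co
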