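import Pool.Agent.Lib.MP_5f94bd_co.Check

/-!
# MP_5f94bd_co: a covering of the unit disk
-/

set_option autoImplicit false

namespace Pool.Agent.Lib.MP_5f94bd_co

/-- centres and radii of the disks, in units of `2 ^ (-24)`; the origin is `(2 ^ 24, 2 ^ 24)` -/
def dat : List (ℕ × ℕ × ℕ) :=
  [(24375535, 17896323, 12760750), (5663349, 18888202, 9705826), (11906015, 5026005, 7382251),
   (12906199, 30172047, 5614940), (21790120, 2857655, 4270723), (20387515, 31778551, 3248312),
   (3645857, 7995612, 2470666), (27084149, 4399139, 1879189), (6541836, 29381744, 1429311),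
   (24346301, 31187762, 1087134), (29184738, 5845710, 826874), (17930254, 252190, 628920),
   (25728099, 30775087, 478356), (1689117, 9859963, 363838), (5087711, 28657405, 276735),
   (4452926, 5517910, 210484), (26299626, 30544595, 160094), (17557160, 33459162, 121768),
   (29921137, 6377240, 92616), (1389594, 10145525, 70444), (23646407, 32050646, 53579),
   (17429593, 33523390, 40752), (12862137, 12355696, 30996), (7300837, 30608740, 23576),
   (17334308, 17041, 17931), (26064088, 2813482, 13639), (1671404, 9494415, 10373),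
   (4527718, 5316345, 7890), (1672335, 9483452, 6001), (26095452, 2828703, 4564),
   (1683286, 9493879, 3471), (18008656, 876326, 2640)]

/-- the disks with the squares of the radii -/
def ds (L : List (ℕ × ℕ × ℕ)) : List (ℕ × ℕ × ℕ) :=
  L.map fun t => (t.1, t.2.1, t.2.2 * t.2.2)

/-- the radii are at most `(p / q) ^ (k + 1)` -/
def radOk (p q : ℕ) : ℕ → List (ℕ × ℕ × ℕ) → Bool
  | _, [] => true
  | k, t :: L => cond (Nat.ble (t.2.2 * q ^ (k + 1)) (2 ^ 24 * p ^ (k + 1)))
      (radOk p q (k + 1) L) false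

theorem check_dat : check (2 ^ 24) 25 0 0 (ds dat) = true := by decide +kernel

theorem rad_dat : radOk 7606 10000 0 dat = true := by decide +kernel

lemma radOk_sound {p q : ℕ} (hq : 0 < q) : ∀ (L : List (ℕ × ℕ × ℕ)) (k : ℕ),
    radOk p q k L = true → ∀ (i : ℕ) (hi : i < L.length),
      ((L[i].2.2 : ℕ) : ℝ) / 2 ^ 24 ≤ ((p : ℝ) / q) ^ (k + i + 1) := by
  intro L
  induction L with
  | nil => intro k _ i hi; simp at hi
  | cons t L ih =>
    intro k h i hi
    rw [radOk] at h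
    simp only [Bool.cond_false_right, Bool.and_eq_true, Nat.ble_eq] at h
    obtain ⟨h1, h2⟩ := h
    rcases i with _ | i
    · have h3 : ((t.2.2 * q ^ (k + 1) : ℕ) : ℝ) ≤ ((2 ^ 24 * p ^ (k + 1) : ℕ) : ℝ) := by
        exact_mod_cast h1
      push_cast at h3
      have hq' : (0 : ℝ) < (q : ℝ) := by exact_mod_cast hq
      rw [List.getElem_cons_zero, add_zero, div_pow, div_le_div_iff₀ (by positivity)
        (by positivity)]
      linarith
    · have h4 := ih (k + 1) h2 i (by simpa using hi)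
      rw [List.getElem_cons_succ]
      have e : k + (i + 1) + 1 = k + 1 + i + 1 := by ring
      rw [e]
      exact h4

/-- the covering -/
theorem cover_dat : ∃ a b : ℕ → ℝ, ∀ x y : ℝ, x ^ 2 + y ^ 2 ≤ 1 →
    ∃ k, (x - a k) ^ 2 + (y - b k) ^ 2 ≤ ((7606 / 10000 : ℝ) ^ (k + 1)) ^ 2 := by
  refine ⟨fun k => (((dat.getD k (0, 0, 0)).1 : ℕ) : ℝ) / 2 ^ 24 - 1,
    fun k => (((dat.getD k (0, 0, 0)).2.1 : ℕ) : ℝ) / 2 ^ 24 - 1, ?_⟩
  intro x y hxy
  have hx := abs_le_of_sq_le_sq (show x ^ 2 ≤ 1 ^ 2 by nlinarith) zero_le_one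
  have hy := abs_le_of_sq_le_sq (show y ^ 2 ≤ 1 ^ 2 by nlinarith) zero_le_one
  have hx' := abs_le.1 hx
  have hy' := abs_le.1 hy
  obtain ⟨D, hD, hD'⟩ := check_sound (2 ^ 24) 25 0 0 (ds dat) check_dat
    (2 ^ 24 * (1 + x)) (2 ^ 24 * (1 + y)) (by push_cast; nlinarith) (by push_cast; nlinarith)
    (by push_cast; nlinarith) (by push_cast; nlinarith) (by push_cast; nlinarith)
  obtain ⟨t, ht, rfl⟩ := List.mem_map.1 hD
  obtain ⟨k, hk, hkt⟩ := List.mem_iff_getElem.1 ht
  have hr := radOk_sound (by norm_num) dat 0 rad_dat k hk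
  refine ⟨k, ?_⟩
  have hg : dat.getD k (0, 0, 0) = t := by
    rw [List.getD_eq_getElem?_getD, List.getElem?_eq_getElem hk, Option.getD_some, hkt]
  rw [hkt, zero_add] at hr
  simp only [hg]
  push_cast at hD' hr
  have h0 : (0 : ℝ) ≤ (t.2.2 : ℝ) / 2 ^ 24 := by positivity
  have h1 := pow_le_pow_left₀ h0 hr 2
  refine le_trans ?_ h1
  have e1 : (x - ((t.1 : ℝ) / 2 ^ 24 - 1)) ^ 2 + (y - ((t.2.1 : ℝ) / 2 ^ 24 - 1)) ^ 2 =
      ((2 ^ 24 * (1 + x) - (t.1 : ℝ)) ^ 2 + (2 ^ 24 * (1 + y) - (t.2.1 : ℝ)) ^ 2) /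
        (2 ^ 24) ^ 2 := by
    field_simp; ring
  rw [e1, div_pow]
  exact div_le_div_of_nonneg_right (by nlinarith) (by positivity)

end Pool.Agent.Lib.MP_5f94bd_co
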