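import Pool.Agent.Lib.MP_5f94bd_co.Defs
import Pool.Agent.Lib.MP_5f94bd_co.Lower
import Pool.Agent.Lib.MP_5f94bd_co.Upper

/-!
# MP_5f94bd_co: the bounds `0.753 ≤ s* ≤ 0.7606`
-/

set_option autoImplicit false

namespace Pool.Agent.Lib.MP_5f94bd_co

lemma mem_ball_iff (p c : EuclideanSpace ℝ (Fin 2)) {r : ℝ} (hr : 0 ≤ r) :
    p ∈ Metric.closedBall c r ↔ (p 0 - c 0) ^ 2 + (p 1 - c 1) ^ 2 ≤ r ^ 2 := by
  rw [Metric.mem_closedBall, EuclideanSpace.dist_eq, Real.sqrt_le_left hr, Fin.sum_univ_two,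
    Real.dist_eq, Real.dist_eq, sq_abs, sq_abs]

lemma admissible_iff {s : ℝ} (hs : 0 ≤ s) : Admissible s ↔ ∃ a b : ℕ → ℝ, ∀ x y : ℝ,
    x ^ 2 + y ^ 2 ≤ 1 → ∃ k, (x - a k) ^ 2 + (y - b k) ^ 2 ≤ (s ^ (k + 1)) ^ 2 := by
  constructor
  · rintro ⟨c, hc⟩
    refine ⟨fun k => c k 0, fun k => c k 1, fun x y hxy => ?_⟩
    have h1 : !₂[x, y] ∈ Metric.closedBall (0 : EuclideanSpace ℝ (Fin 2)) 1 := by
      rw [mem_ball_iff _ _ zero_le_one]
      simpa using hxy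
    obtain ⟨k, hk⟩ := Set.mem_iUnion.1 (hc h1)
    rw [mem_ball_iff _ _ (pow_nonneg hs _)] at hk
    exact ⟨k, by simpa using hk⟩
  · rintro ⟨a, b, h⟩
    refine ⟨fun k => !₂[a k, b k], fun p hp => ?_⟩
    rw [mem_ball_iff _ _ zero_le_one] at hp
    obtain ⟨k, hk⟩ := h (p 0) (p 1) (by simpa using hp)
    refine Set.mem_iUnion.2 ⟨k, ?_⟩
    rw [mem_ball_iff _ _ (pow_nonneg hs _)]
    simpa using hk

theorem admissible_upper : Admissible (7606 / 10000) :=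
  (admissible_iff (by norm_num)).2 cover_dat

theorem not_admissible {s : ℝ} (h0 : 0 < s) (h1 : s ≤ 753 / 1000) : ¬ Admissible s := by
  intro h
  obtain ⟨a, b, hab⟩ := (admissible_iff h0.le).1 h
  refine not_cover a b fun x y hxy => ?_
  obtain ⟨k, hk⟩ := hab x y hxy
  refine ⟨k, hk.trans ?_⟩
  exact pow_le_pow_left₀ (pow_nonneg h0.le _) (pow_le_pow_left₀ h0.le h1 _) 2

theorem le_sStar : 753 / 1000 ≤ sStar := by
  refine le_csInf ⟨7606 / 10000, by norm_num, by norm_num, admissible_upper⟩ ?_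
  rintro s ⟨h0, -, hs⟩
  by_contra hlt
  push Not at hlt
  exact not_admissible h0 hlt.le hs

theorem sStar_le : sStar ≤ 7606 / 10000 :=
  csInf_le ⟨0, fun s hs => hs.1.le⟩ ⟨by norm_num, by norm_num, admissible_upper⟩

end Pool.Agent.Lib.MP_5f94bd_co
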