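import Pool.Agent.Lib.MP_5f94bd_co.Arc

/-!
# MP_5f94bd_co: a checker for the local estimate

For a disk of radius `r` whose centre has distance `d` from the origin let `α`, `β` bound half the
angles of the arcs of the circles of radius `1` and `ρ` covered by it.  `chk` verifies
`α + w β ≤ F` for all `d ≥ 0`, by a subdivision of the range of `d`.
-/

set_option autoImplicit false

namespace Pool.Agent.Lib.MP_5f94bd_co

/-- an upper bound for `cos x` -/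
def cosU (x : ℚ) : ℚ :=
  1 - x ^ 2 / 2 + x ^ 4 / 24 - x ^ 6 / 720 + x ^ 8 / 40320 - x ^ 10 / 3628800 +
    x ^ 12 / 479001600 + x ^ 14 / 43589145600

lemma cos_le_aux {x : ℝ} (h0 : 0 ≤ x) (h1 : x ≤ 7) :
    Real.cos x ≤ 1 - x ^ 2 / 2 + x ^ 4 / 24 - x ^ 6 / 720 + x ^ 8 / 40320 - x ^ 10 / 3628800 +
      x ^ 12 / 479001600 + x ^ 14 / 43589145600 := by
  have hn : ‖(x : ℂ) * Complex.I‖ = x := by simp [abs_of_nonneg h0]
  have h := Complex.exp_bound' (x := (x : ℂ) * Complex.I) (n := 14) (by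
    rw [hn, div_le_iff₀ (by positivity)]
    push_cast
    linarith)
  have h2 := (Complex.abs_re_le_norm _).trans h
  rw [hn] at h2
  have h3 : (Complex.exp ((x : ℂ) * Complex.I) -
      ∑ m ∈ Finset.range 14, ((x : ℂ) * Complex.I) ^ m / (m.factorial : ℂ)).re =
      Real.cos x - (1 - x ^ 2 / 2 + x ^ 4 / 24 - x ^ 6 / 720 + x ^ 8 / 40320 -
        x ^ 10 / 3628800 + x ^ 12 / 479001600) := by
    rw [Complex.sub_re, Complex.exp_ofReal_mul_I_re]
    congr 1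
    have e : ∀ m : ℕ, (((x : ℂ) * Complex.I) ^ m / (m.factorial : ℂ)) =
        ((x ^ m / m.factorial : ℝ) : ℂ) * Complex.I ^ m := by
      intro m; push_cast; ring
    have i2 : Complex.I ^ 2 = -1 := Complex.I_sq
    have i3 : Complex.I ^ 3 = -Complex.I := Complex.I_pow_three
    have i4 : Complex.I ^ 4 = 1 := Complex.I_pow_four
    have i5 : Complex.I ^ 5 = Complex.I := by rw [pow_succ, i4, one_mul]
    have i6 : Complex.I ^ 6 = -1 := by rw [show 6 = 4 + 2 from rfl, pow_add, i4, i2, one_mul]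
    have i7 : Complex.I ^ 7 = -Complex.I := by
      rw [show 7 = 4 + 3 from rfl, pow_add, i4, i3, one_mul]
    have i8 : Complex.I ^ 8 = 1 := by rw [show 8 = 4 + 4 from rfl, pow_add, i4, one_mul]
    have i9 : Complex.I ^ 9 = Complex.I := by rw [pow_succ, i8, one_mul]
    have i10 : Complex.I ^ 10 = -1 := by rw [show 10 = 8 + 2 from rfl, pow_add, i8, i2, one_mul]
    have i11 : Complex.I ^ 11 = -Complex.I := by
      rw [show 11 = 8 + 3 from rfl, pow_add, i8, i3, one_mul]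
    have i12 : Complex.I ^ 12 = 1 := by rw [show 12 = 8 + 4 from rfl, pow_add, i8, i4, one_mul]
    have i13 : Complex.I ^ 13 = Complex.I := by rw [pow_succ, i12, one_mul]
    simp only [e, Finset.sum_range_succ, Finset.sum_range_zero, i2, i3, i4, i5, i6, i7, i8, i9,
      i10, i11, i12, i13, pow_zero, pow_one]
    simp only [Complex.add_re, Complex.re_ofReal_mul, Complex.neg_re, Complex.ofReal_re,
      Complex.I_re, mul_one, mul_zero, neg_zero, add_zero, zero_add, mul_neg]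
    simp only [Nat.factorial]
    push_cast
    ring
  rw [h3] at h2
  have h4 := (abs_le.1 h2).2
  have h5 : x ^ 14 / ((14 : ℕ).factorial : ℝ) * 2 = x ^ 14 / 43589145600 := by
    simp [Nat.factorial]; ring
  rw [h5] at h4
  linarith

lemma cos_le {x : ℚ} (h0 : 0 ≤ x) (h1 : x ≤ 7) : Real.cos (x : ℝ) ≤ ((cosU x : ℚ) : ℝ) := by
  have h := cos_le_aux (x := (x : ℝ)) (by exact_mod_cast h0) (by exact_mod_cast h1)
  refine h.trans (le_of_eq ?_)
  unfold cosU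
  push_cast
  ring

/-- the test of `α` for all `d` in `[x, y]` (`q` is the square of the radius) -/
def okc (ρ q x y α : ℚ) : Bool :=
  decide (31416 / 10000 ≤ α) ||
  (decide (ρ * cosU α ≤ x) && decide (0 < x ^ 2 - 2 * (ρ * cosU α) * x + ρ ^ 2 - q)) ||
  (decide (y ≤ ρ * cosU α) && decide (0 < y ^ 2 - 2 * (ρ * cosU α) * y + ρ ^ 2 - q)) ||
  decide ((ρ * cosU α) ^ 2 < ρ ^ 2 - q)

lemma ok_of_okc {ρ q x y α : ℚ} (hρ : 0 < ρ) (h0 : 0 ≤ α) (h1 : α ≤ 7)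
    (h : okc ρ q x y α = true) {r d : ℝ} (hr : r ^ 2 = (q : ℝ)) (hd : 0 ≤ d) (hx : (x : ℝ) ≤ d)
    (hy : d ≤ (y : ℝ)) : Ok (ρ : ℝ) d r (α : ℝ) := by
  refine ⟨by exact_mod_cast h0, ?_⟩
  simp only [okc, Bool.or_eq_true, Bool.and_eq_true, decide_eq_true_eq] at h
  have hc := cos_le h0 h1
  set v : ℚ := ρ * cosU α with hv
  have hvr : ((v : ℚ) : ℝ) = (ρ : ℝ) * ((cosU α : ℚ) : ℝ) := by rw [hv]; push_cast; ring
  have hρr : (0 : ℝ) < (ρ : ℝ) := by exact_mod_cast hρ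
  have hkey : 2 * (ρ : ℝ) * d * Real.cos (α : ℝ) ≤ 2 * (v : ℝ) * d := by
    have := mul_le_mul_of_nonneg_left hc (mul_nonneg hρr.le hd)
    rw [hvr]
    nlinarith
  rcases h with ((h | h) | h) | h
  · left
    have h2 : ((31416 / 10000 : ℚ) : ℝ) ≤ (α : ℝ) := by exact_mod_cast h
    push_cast at h2
    have := Real.pi_lt_d4
    linarith
  · right
    have h2 : ((v : ℚ) : ℝ) ≤ (x : ℝ) := by exact_mod_cast h.1
    have h3 : (0 : ℝ) < (x : ℝ) ^ 2 - 2 * (v : ℝ) * x + (ρ : ℝ) ^ 2 - q := by exact_mod_cast h.2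
    rw [hr]
    nlinarith [mul_nonneg (sub_nonneg.2 hx) (by linarith : (0 : ℝ) ≤ d + x - 2 * v)]
  · right
    have h2 : (y : ℝ) ≤ ((v : ℚ) : ℝ) := by exact_mod_cast h.1
    have h3 : (0 : ℝ) < (y : ℝ) ^ 2 - 2 * (v : ℝ) * y + (ρ : ℝ) ^ 2 - q := by exact_mod_cast h.2
    rw [hr]
    nlinarith [mul_nonneg (sub_nonneg.2 hy) (by linarith : (0 : ℝ) ≤ 2 * v - d - y)]
  · right
    have h2 : ((v : ℚ) : ℝ) ^ 2 < (ρ : ℝ) ^ 2 - q := by exact_mod_cast h
    rw [hr]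
    nlinarith [sq_nonneg (d - (v : ℝ))]

/-- the test of `α + w β ≤ F` on a subdivision of `[x, ∞)`; `L` is the list of the triples
`(y, α, β)` for consecutive intervals `[x, y]` -/
def chk (ρ w q F : ℚ) : ℚ → List (ℚ × ℚ × ℚ) → Bool
  | x, [] => decide (1 < x) && decide (ρ < x) && decide (q < (x - 1) ^ 2) &&
      decide (q < (x - ρ) ^ 2) && decide (0 ≤ F)
  | x, (y, α, β) :: L => decide (0 ≤ α) && decide (0 ≤ β) && decide (α ≤ 7) && decide (β ≤ 7) &&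
      okc 1 q x y α && okc ρ q x y β && decide (α + w * β ≤ F) && chk ρ w q F y L

lemma of_chk {ρ w q F : ℚ} (hρ : 0 < ρ) {r : ℝ} (hr : r ^ 2 = (q : ℝ)) :
    ∀ (L : List (ℚ × ℚ × ℚ)) (x : ℚ), chk ρ w q F x L = true → ∀ d : ℝ, 0 ≤ d → (x : ℝ) ≤ d →
      ∃ α β : ℝ, Ok 1 d r α ∧ Ok (ρ : ℝ) d r β ∧ α + (w : ℝ) * β ≤ (F : ℝ) := by
  intro L
  induction L with
  | nil =>
    intro x h d hd hx
    simp only [chk, Bool.and_eq_true, decide_eq_true_eq] at h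
    obtain ⟨⟨⟨⟨h1, h2⟩, h3⟩, h4⟩, h5⟩ := h
    have h1' : (1 : ℝ) < (x : ℝ) := by exact_mod_cast h1
    have h2' : (ρ : ℝ) < (x : ℝ) := by exact_mod_cast h2
    have h3' : (q : ℝ) < ((x : ℝ) - 1) ^ 2 := by exact_mod_cast h3
    have h4' : (q : ℝ) < ((x : ℝ) - ρ) ^ 2 := by exact_mod_cast h4
    have h5' : (0 : ℝ) ≤ (F : ℝ) := by exact_mod_cast h5
    refine ⟨0, 0, ⟨le_rfl, Or.inr ?_⟩, ⟨le_rfl, Or.inr ?_⟩, by simpa using h5'⟩
    · rw [Real.cos_zero, hr]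
      nlinarith
    · rw [Real.cos_zero, hr]
      nlinarith
  | cons p L ih =>
    obtain ⟨y, α, β⟩ := p
    intro x h d hd hx
    simp only [chk, Bool.and_eq_true, decide_eq_true_eq] at h
    obtain ⟨⟨⟨⟨⟨⟨⟨h1, h2⟩, h3⟩, h4⟩, h5⟩, h6⟩, h7⟩, h8⟩ := h
    by_cases hy : d ≤ (y : ℝ)
    · refine ⟨α, β, ?_, ok_of_okc hρ h2 h4 h6 hr hd hx hy, by exact_mod_cast h7⟩
      have := ok_of_okc one_pos h1 h3 h5 hr hd hx hy
      simpa using this
    · push Not at hy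
      exact ih y h8 d hd hy.le

end Pool.Agent.Lib.MP_5f94bd_co
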